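import Mathlib
import Pool.Agent.Lib.MP_f75418_nt.AP.Final

/-!
# Antipalindromic almost primes in base 3

There are `δ > 0`, `c > 0` and `R` such that for all large `n` at least a proportion `c / n` of the
antipalindromic numbers with exactly `2n+1` digits in base `3` have at most `R` prime factors,
counted with multiplicity, all of them at least `m ^ δ`.
-/

open Finset

namespace Pool.Agent.Results.MP_f75418_nt.AlmostPrimes

open Pool.Agent.Lib.MP_f75418_nt

/-- `m` is antipalindromic in base `3`: digits `d` and `2 - d` are exchanged by the reversal. -/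
def Antipal (m : ℕ) : Prop :=
  (Nat.digits 3 m).reverse = (Nat.digits 3 m).map (fun d => 2 - d)

lemma pow_length_le (x : ℝ) (hx : 0 ≤ x) : ∀ l : List ℕ, (∀ p ∈ l, x ≤ (p : ℝ)) →
    x ^ l.length ≤ ((l.prod : ℕ) : ℝ) := by
  intro l
  induction l with
  | nil => intro _; simp
  | cons a l ih =>
    intro h
    rw [List.length_cons, List.prod_cons, pow_succ, mul_comm, Nat.cast_mul]
    exact mul_le_mul (h a List.mem_cons_self) (ih fun p hp => h p (List.mem_cons_of_mem a hp))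
      (pow_nonneg hx _) (Nat.cast_nonneg a)

theorem main : ∃ (δ c : ℝ) (R n₀ : ℕ), 0 < δ ∧ 0 < c ∧ ∀ n : ℕ, n₀ ≤ n →
    c / n * (Set.ncard {m : ℕ | 3 ^ (2 * n) ≤ m ∧ m < 3 ^ (2 * n + 1) ∧ Antipal m} : ℝ) ≤
    (Set.ncard {m : ℕ | 3 ^ (2 * n) ≤ m ∧ m < 3 ^ (2 * n + 1) ∧ Antipal m ∧
      m.primeFactorsList.length ≤ R ∧ ∀ p : ℕ, p.Prime → p ∣ m → (m : ℝ) ^ δ ≤ p} : ℝ) := by
  classical
  obtain ⟨b, hb, c, C, hc, hC, n₀, h⟩ := counts
  have hb' : (1 : ℝ) ≤ b := by exact_mod_cast hb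
  refine ⟨1 / (1440000 * b), c / 3, 1440000 * b, n₀ + 2, by positivity, by positivity, ?_⟩
  intro n hn
  obtain ⟨N, rfl⟩ : ∃ N, n = N + 1 := ⟨n - 1, by omega⟩
  have hN1 : 1 ≤ N := by omega
  have hNr : (1 : ℝ) ≤ N := by exact_mod_cast hN1
  have h1 := (h N (by omega)).1
  -- all antipalindromic numbers
  have hA : {m : ℕ | 3 ^ (2 * (N + 1)) ≤ m ∧ m < 3 ^ (2 * (N + 1) + 1) ∧ Antipal m} =
      ((antipals (N + 1) : Finset ℕ) : Set ℕ) := by
    ext m
    rw [Set.mem_ofPred_eq, Finset.mem_coe, mem_antipals]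
    unfold Antipal IsAntipal
    tauto
  rw [hA, Set.ncard_coe_finset]
  have hcard : ((antipals (N + 1)).card : ℝ) ≤ 3 ^ (N + 1) := by
    exact_mod_cast card_antipals_le (N + 1)
  -- the good ones
  set G := ((Finset.univ : Finset (Fin N → Fin 3)).filter (fun a =>
      ∀ p, p.Prime → p ∣ av N a → Real.exp (N / (240000 * b)) ≤ p)).image (av N) with hG
  have hGcard : (G.card : ℝ) = (((Finset.univ : Finset (Fin N → Fin 3)).filter (fun a =>
      ∀ p, p.Prime → p ∣ av N a → Real.exp (N / (240000 * b)) ≤ p)).card : ℝ) := by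
    rw [hG, Finset.card_image_of_injective _ (av_injective N)]
  have hsub : (G : Set ℕ) ⊆ {m : ℕ | 3 ^ (2 * (N + 1)) ≤ m ∧ m < 3 ^ (2 * (N + 1) + 1) ∧ Antipal m ∧
      m.primeFactorsList.length ≤ 1440000 * b ∧
      ∀ p : ℕ, p.Prime → p ∣ m → (m : ℝ) ^ (1 / (1440000 * b : ℝ)) ≤ p} := by
    intro m hm
    rw [Finset.mem_coe, hG, Finset.mem_image] at hm
    obtain ⟨a, ha, rfl⟩ := hm
    rw [Finset.mem_filter] at ha
    have ha2 := ha.2
    have hmem := mem_antipals.mp (av_mem N a)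
    have hpos : 0 < av N a := lt_of_lt_of_le (by positivity) hmem.1.1
    have hposr : (0 : ℝ) < (av N a : ℕ) := by exact_mod_cast hpos
    have hle : ((av N a : ℕ) : ℝ) ≤ Real.exp (6 * N) := by
      have h3 : ((av N a : ℕ) : ℝ) ≤ 3 ^ (2 * (N + 1) + 1) := by exact_mod_cast hmem.1.2.le
      have hlog3 : Real.log 3 ≤ 6 / 5 := by
        rw [Real.log_le_iff_le_exp (by norm_num)]
        have h4 := Real.sum_le_exp_of_nonneg (show (0 : ℝ) ≤ 6 / 5 by norm_num) 5
        refine le_trans ?_ h4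
        norm_num [Finset.sum_range_succ, Nat.factorial]
      calc ((av N a : ℕ) : ℝ) ≤ 3 ^ (2 * (N + 1) + 1) := h3
        _ ≤ 3 ^ (5 * N) := pow_le_pow_right₀ (by norm_num) (by omega)
        _ = Real.exp (5 * N * Real.log 3) := by
            rw [← Real.rpow_natCast, Real.rpow_def_of_pos (by norm_num)]
            push_cast
            congr 1
            ring
        _ ≤ Real.exp (6 * N) := by
            rw [Real.exp_le_exp]
            nlinarith
    refine ⟨hmem.1.1, hmem.1.2, hmem.2, ?_, ?_⟩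
    · have h4 := pow_length_le (Real.exp (N / (240000 * b))) (Real.exp_pos _).le
        (av N a).primeFactorsList (fun p hp => by
          exact ha2 p (Nat.prime_of_mem_primeFactorsList hp) (Nat.dvd_of_mem_primeFactorsList hp))
      rw [Nat.prod_primeFactorsList hpos.ne', ← Real.exp_nat_mul] at h4
      have h5 := Real.exp_le_exp.mp (h4.trans hle)
      rw [mul_div_assoc', div_le_iff₀ (by positivity)] at h5
      have h6 : (((av N a).primeFactorsList.length : ℕ) : ℝ) * N ≤ (1440000 * b : ℝ) * N := by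
        linarith
      have h7 := le_of_mul_le_mul_right h6 (by linarith)
      exact_mod_cast h7
    · intro p hp hpd
      refine le_trans ?_ (ha2 p hp hpd)
      calc ((av N a : ℕ) : ℝ) ^ (1 / (1440000 * b : ℝ)) ≤
            (Real.exp (6 * N)) ^ (1 / (1440000 * b : ℝ)) :=
            Real.rpow_le_rpow hposr.le hle (by positivity)
        _ = Real.exp (N / (240000 * b)) := by
            rw [← Real.exp_mul]
            congr 1
            field_simp
            norm_num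
  have hfin : Set.Finite {m : ℕ | 3 ^ (2 * (N + 1)) ≤ m ∧ m < 3 ^ (2 * (N + 1) + 1) ∧ Antipal m ∧
      m.primeFactorsList.length ≤ 1440000 * b ∧
      ∀ p : ℕ, p.Prime → p ∣ m → (m : ℝ) ^ (1 / (1440000 * b : ℝ)) ≤ p} :=
    Set.Finite.subset (Set.finite_Iio (3 ^ (2 * (N + 1) + 1))) fun m hm => hm.2.1
  have h2 : (G.card : ℝ) ≤ (Set.ncard {m : ℕ | 3 ^ (2 * (N + 1)) ≤ m ∧
      m < 3 ^ (2 * (N + 1) + 1) ∧ Antipal m ∧ m.primeFactorsList.length ≤ 1440000 * b ∧
      ∀ p : ℕ, p.Prime → p ∣ m → (m : ℝ) ^ (1 / (1440000 * b : ℝ)) ≤ p} : ℝ) := by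
    have h3 := Set.ncard_le_ncard hsub hfin
    rw [Set.ncard_coe_finset] at h3
    exact_mod_cast h3
  refine le_trans ?_ h2
  rw [hGcard]
  refine le_trans ?_ h1
  calc c / 3 / ((N + 1 : ℕ) : ℝ) * ((antipals (N + 1)).card : ℝ)
      ≤ c / 3 / ((N + 1 : ℕ) : ℝ) * 3 ^ (N + 1) := mul_le_mul_of_nonneg_left hcard (by positivity)
    _ ≤ c / 3 / N * 3 ^ (N + 1) := by
        refine mul_le_mul_of_nonneg_right ?_ (by positivity)
        apply div_le_div_of_nonneg_left (by positivity) (by linarith)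
        push_cast
        linarith
    _ = c * 3 ^ N / N := by
        rw [pow_succ]
        ring

/-- **Main result.** -/
theorem result : ∃ (δ c : ℝ) (R n₀ : ℕ), 0 < δ ∧ 0 < c ∧
    (∀ n : ℕ, n₀ ≤ n →
    c / n * (Set.ncard {m : ℕ | 3 ^ (2 * n) ≤ m ∧ m < 3 ^ (2 * n + 1) ∧ Antipal m} : ℝ) ≤
    (Set.ncard {m : ℕ | 3 ^ (2 * n) ≤ m ∧ m < 3 ^ (2 * n + 1) ∧ Antipal m ∧
      m.primeFactorsList.length ≤ R ∧ ∀ p : ℕ, p.Prime → p ∣ m → (m : ℝ) ^ δ ≤ p} : ℝ)) ∧
    Set.Infinite {m : ℕ | Antipal m ∧ m.primeFactorsList.length ≤ R} := by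
  obtain ⟨δ, c, R, n₀, hδ, hc, h⟩ := main
  refine ⟨δ, c, R, n₀, hδ, hc, h, ?_⟩
  rw [Set.infinite_iff_exists_gt]
  intro k
  set n := n₀ + k + 1 with hn
  have h1 := h n (by omega)
  have hA : {m : ℕ | 3 ^ (2 * n) ≤ m ∧ m < 3 ^ (2 * n + 1) ∧ Antipal m} =
      ((antipals n : Finset ℕ) : Set ℕ) := by
    ext m
    rw [Set.mem_ofPred_eq, Finset.mem_coe, mem_antipals]
    unfold Antipal IsAntipal
    tauto
  rw [hA, Set.ncard_coe_finset] at h1
  have h2 := card_antipals_ge n (by omega)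
  have h3 : (0 : ℝ) < ((antipals n).card : ℝ) := by
    have : 0 < 3 ^ (n - 1) := by positivity
    exact_mod_cast lt_of_lt_of_le this h2
  have hn0 : (0 : ℝ) < n := by
    have : 0 < n := by omega
    exact_mod_cast this
  have h4 : (0 : ℝ) < c / n * ((antipals n).card : ℝ) := by positivity
  have h5 := lt_of_lt_of_le h4 h1
  have h6 := Nat.cast_pos.mp h5
  obtain ⟨m, hm⟩ := Set.nonempty_of_ncard_ne_zero h6.ne'
  refine ⟨m, ⟨hm.2.2.1, hm.2.2.2.1⟩, ?_⟩
  have h7 : n < 3 ^ n := Nat.lt_pow_self (by norm_num)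
  have h8 : 3 ^ n ≤ 3 ^ (2 * n) := Nat.pow_le_pow_right (by norm_num) (by omega)
  have h9 := hm.1
  omega

end Pool.Agent.Results.MP_f75418_nt.AlmostPrimes
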